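import Pool.Agent.J4H24.TK.Gen

/-!
# MP_47ff19_lc, Q1 (`j = 0`, LOGSPACE versus P): nondeterministic (semantically) incremental
branching programs for GEN

GEN (is the last element generated by the first one under a given binary operation?) is complete
for P. Incremental branching programs are due to Gál, Koucký and McKenzie. The proof: a program for
GEN whose complete computations test only entries at generated elements is translated into a
thrifty program for the evaluation of pyramids (the elements are the pairs of a node and a value),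
and the theorem on thrifty programs (`Pool/Agent/J4H24/TH/`, `Pool/Agent/J4H24/TK/`) is applied.
-/

namespace Pool.Agent.Results.MP_47ff19_lc.IncrementalGeneration

open Pool.Agent.J4H24.GN

theorem result :
    (∀ (n : ℕ) (Q : Type) (P : Prog (n + 1) Q), Incremental P → Generating P) ∧
    ∀ n : ℕ, 10 ^ 21 ≤ n →
      ∃ (ι : Type) (_ : Fintype ι) (_ : Nonempty ι)
        (F : ι → Fin (n + 1) → Fin (n + 1) → Fin (n + 1)),
        ∀ (Q : Type) [Fintype Q] (P : Prog (n + 1) Q), Generating P →
          (Fintype.card Q : ℝ) < (2 : ℝ) ^ ((n : ℝ) ^ (1 / 10 : ℝ) / 10) →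
          ∀ Φ : Set (List (Option (Fin (n + 1) × Fin (n + 1) × Fin (n + 1)) × Q)) → Prop,
            (Nat.card {t : ι // Φ (comps P (F t)) ↔ Gen (F t) (Fin.last n)} : ℝ) ≤
              (1 / 2 + Real.exp (-(n : ℝ) ^ (1 / 5 : ℝ) / 6)) * Nat.card ι :=
  ⟨fun _ _ P hI => inc_gen P hI, Pool.Agent.J4H24.TK.gen_main2⟩

end Pool.Agent.Results.MP_47ff19_lc.IncrementalGeneration
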