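import Pool.Agent.J4H22.Quasi

/-!
# A parity dichotomy with immunity and a quasi-polynomial margin

For indices `j` and `k` of different parity, `C_{j+1}` contains an infinite tally set without
infinite subsets in the quasi-polynomial enlargement `QC_j` of `C_j`, or `C_{k+1}` contains a tally
set, infinite and coinfinite in the set of all tally inputs, such that neither the set nor its
tally complement has an infinite subset in `QC_k`. This holds without oracle and relative to every
oracle. For example, P contains an infinite tally set immune to polylogarithmic space, or PSPACE
contains a tally set bi-immune to quasi-polynomial time.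

Proof: a machine-independent form of the classes (deterministic multi-tape machines are simulated
by polynomial-time steps on codes of configurations), two padding translations for tally sets that
carry a failure of immunity (or of bi-immunity) two levels up and absorb the quasi-polynomial
margin, and a tally set two levels up that is bi-immune, built by a delayed diagonalization in
which every requirement acts at most once.
-/

namespace Pool.Agent.Results.MP_47ff19_lc.ParityImmunity

open Pool.Agent.J4H22

/-- For `j`, `k` of different parity, `C_{j+1}` has an infinite tally subset that is immune to
`QC_j`, or `C_{k+1}` has a tally subset that is bi-immune to `QC_k`. -/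
theorem result (o : Option Oracle) (j k : ℕ) (h : Odd (j + k)) :
    (∃ T ∈ C o (j + 1), T ⊆ Tal ∧ T.Infinite ∧ ∀ S ∈ QC o j, S ⊆ T → S.Finite) ∨
    (∃ T ∈ C o (k + 1), T ⊆ Tal ∧ T.Infinite ∧ (Tal \ T).Infinite ∧
      ∀ S ∈ QC o k, S ⊆ T ∨ S ⊆ Tal \ T → S.Finite) :=
  parityQ o j k h

end Pool.Agent.Results.MP_47ff19_lc.ParityImmunity
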