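import Pool.Agent.J4H24.TK.Main
import Pool.Agent.J4H24.TU.Est

/-!
# MP_47ff19_lc, Q1 (`j = 0`, LOGSPACE versus P): the size of thrifty branching programs, with any
acceptance criterion, for pyramids is `2 ^ Θ(√(h log k))`, up to a factor `log h` in the exponent

Lower bound (`Pool/Agent/J4H24/TH/` and `Pool/Agent/J4H24/TK/`): such programs do not evaluate pyramids
better than a constant guess. The set of the complete
computations of a thrifty program on an input depends only on the values of the nodes (it is the
same for the tables which are constant with these values). If some complete computation tests the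
root, then there is a short one, it tests all nodes, and one reads from it a sequence of black and
white nodes (a node is black at a cut if a later use of it is nearest to a production before the
cut, white in the opposite case). A pebbling argument for pyramids (`TK/Pyr.lean`, a short proof of a
linear bound as in Klawe's theorem) gives a cut with `≥ h / 6` nodes of one colour. The uses are
classified by dyadic distance from the cut; the values of these nodes are then determined by the
`O(log |Q|)` states at the ends of the dyadic intervals: if two inputs had the same data, replacing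
the shortest interval in which the inputs differ would give a computation which is not thrifty. So
for almost all inputs no complete computation tests the root.

Upper bound (`Pool/Agent/J4H24/TU/`): the nodes of a layered graph over the alphabet `k ^ (2 ^ s)`, where
`2 ^ s` is about `√(h / log k)`, know the values of `1, 2, 4, …, 2 ^ s` successive nodes of the pyramid;
after `s + 1` levels a pyramid of height `2 ^ s - 1` is evaluated by a deterministic procedure. The
unambiguous thrifty program of ThriftyTreeEvaluation (`TW/Fin.lean`) for this layered graph, of height
about `√(h log k) log h`, is simulated.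
-/

namespace Pool.Agent.Results.MP_47ff19_lc.ThriftyPrograms

open Pool.Agent.J4H24.TH

theorem result (h : ℕ) (hh : 10 ^ 4 ≤ h) (k : ℕ) [NeZero k] (A : Finset (Fin k)) :
    (h ^ 3 ≤ k → ∀ (Q : Type) [Fintype Q] (P : Prog k Q), Within h P → Thrifty P →
      (Fintype.card Q : ℝ) < (2 : ℝ) ^ ((1 / 40 : ℝ) * √((h : ℝ) * Real.log k)) →
      ∀ Φ : Set (List (Option (Var k × Fin k) × Q)) → Prop,
        (Nat.card {g : Fin (h + 1) × Fin (h + 1) → Fin k → Fin k → Fin k //
            Φ (comps P (inp g)) ↔ val (inp g) h 0 ∈ A} : ℝ) ≤
          (((max A.card (k - A.card) : ℕ) : ℝ) / k + (k : ℝ) ^ (-((h : ℝ) / 100))) *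
            Nat.card (Fin (h + 1) × Fin (h + 1) → Fin k → Fin k → Fin k)) ∧
    (2 ≤ k → Real.log k ≤ h →
      ∃ (Q : Type) (_ : Fintype Q) (P : Prog k Q), Within h P ∧ Thrifty P ∧
        (∀ f, (val f h 0 ∈ A → ∃ L, comps P f = {L}) ∧ (val f h 0 ∉ A → comps P f = ∅)) ∧
        (Fintype.card Q : ℝ) ≤ Real.exp (150000 * √((h : ℝ) * Real.log k) * Real.log h)) :=
  ⟨fun hk Q _ P hW hT hQ Φ => Pool.Agent.J4H24.TK.th_main2 h hh k hk A Q P hW hT hQ Φ,
    fun hk hkh => Pool.Agent.J4H24.TU.upper_main hh hk hkh A⟩

end Pool.Agent.Results.MP_47ff19_lc.ThriftyPrograms
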