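import Pool.Agent.J4H24.TW.Fin

/-!
# MP_47ff19_lc, Q1 (`j = 0`, LOGSPACE versus P): small unambiguous nondeterministic thrifty branching
programs for the Tree Evaluation Problem, and for all layered graphs of fan-in two

The proof is in `Pool/Agent/J4H24/TD/` (program), `Pool/Agent/J4H24/TE/` and
`Pool/Agent/J4H24/TW/` (codes). The program keeps three registers. For each inner node it evaluates
the left child, the right child, then queries the table of the node, then it evaluates the right and
the left child once more. When the value `x` of a child is found for the first time, it is added to a
register: the code `s` of the register is replaced by an edge `(x, s)` of a graph which is a union of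
induced matchings; at the query a value `x'` is guessed, and when the value of the child is found for
the second time, the register must again be consistent with it. Since the matchings are induced this
forces `x' = x`, and the old code comes back. Hence every complete computation is right and thrifty,
there is exactly one of them on every input, and a register grows only by the ratio of the number of
vertices to the number of edges of a matching. Two codes are used: sets without three terms in
arithmetic progression (Behrend's construction, from Mathlib), with a factor `exp (O (√ log k + h))`
for each level, and graphs on a grid whose edges are translations by the vectors `(r - a, a²)` of the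
letters of a code word, on strips defined by a weight (after Fischer, Lehman, Newman, Raskhodnikova,
Rubinfeld, Samorodnitsky, who use two letters), with alphabets of `2 ^ (t + 2)` letters: a factor
`exp (O t)` for each level and a start of size `exp (O (log k + log k * log log k / t))`.
-/

namespace Pool.Agent.Results.MP_47ff19_lc.ThriftyTreeEvaluation

open Pool.Agent.J4H24.TD

theorem result (l r : ℕ → ℕ → ℕ) (h k : ℕ) (hk : 2 ≤ k) :
    ∃ (Q : Type) (_ : Fintype Q) (P : NBP k Q), Thrifty P l r h ∧ Solves P l r h ∧
      (Fintype.card Q : ℝ) ≤
        min (Real.exp (11000 * (h + 1 + Real.log k +
            √(h * (Real.log k * (1 + Real.log (1 + Real.log k)))))))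
          ((k : ℝ) ^ 5 * Real.exp (100 * (h + 1) * (√(Real.log k) + (h + 1)))) :=
  Pool.Agent.J4H24.TW.tw_final l r h k hk

end Pool.Agent.Results.MP_47ff19_lc.ThriftyTreeEvaluation
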